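import Pool.Agent.R225.NM.Fin

set_option autoImplicit false

/-!
# The optimal Neumann monotonicity constant does not tend to one

For all `d ≥ 3` and `k ≥ 1` there are, for each `ε > 0`, bounded convex domains `Ω₁ ⊆ Ω₂` in the
Euclidean space of dimension `d` with `μ_k(Ω₁) ≤ (9 / 16 + ε) π²` and `μ_k(Ω₂) ≥ π²`. So
`α_{k,d} ≤ 9 / 16` for all `d ≥ 3` and `k ≥ 1`, and it is not true that `α_{k,d}` tends to `1` as
`k → ∞` for each `d ≥ 2`.

`Ω₂` is the box `(0, k) × (0, 1)^(d - 1)`; `Ω₁` is the product of `(0, k)`, of a thin rectangle along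
the diagonal of the unit square, and of `(0, 1)^(d - 3)`.
-/

open Filter Topology
open scoped Real
open Pool.Agent.R225.NM

namespace Pool.Agent.Results.MP_382727_an.NoLimitOne

theorem result :
    (∀ d k : ℕ, 3 ≤ d → 1 ≤ k → ∀ ε : ℝ, 0 < ε →
      ∃ Ω₁ Ω₂ : Set (EuclideanSpace ℝ (Fin d)), IsConvexDomain Ω₁ ∧ IsConvexDomain Ω₂ ∧
        Ω₁ ⊆ Ω₂ ∧ neumannEigenvalue Ω₁ k ≤ (9 / 16 + ε) * π ^ 2 ∧
        π ^ 2 ≤ neumannEigenvalue Ω₂ k) ∧
    (∀ d k : ℕ, 3 ≤ d → 1 ≤ k → alpha k d ≤ 9 / 16) ∧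
    ¬ ∀ d : ℕ, 2 ≤ d → Tendsto (fun k : ℕ => alpha k d) atTop (𝓝 1) := by
  have h2 : ∀ d k : ℕ, 3 ≤ d → 1 ≤ k → alpha k d ≤ 9 / 16 := by
    intro d k hd hk
    obtain ⟨n, rfl⟩ := Nat.exists_eq_add_of_le' hd
    exact alpha_le n k hk
  refine ⟨?_, h2, ?_⟩
  · intro d k hd hk ε hε
    obtain ⟨n, rfl⟩ := Nat.exists_eq_add_of_le' hd
    exact pair_eps n k hk hε
  · intro h
    have h3 := h 3 (by norm_num)
    have h4 : (1 : ℝ) ≤ 9 / 16 := by
      refine le_of_tendsto h3 ?_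
      filter_upwards [eventually_ge_atTop 1] with k hk
      exact h2 3 k le_rfl hk
    norm_num at h4

end Pool.Agent.Results.MP_382727_an.NoLimitOne
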